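import Mathlib
import Pool.Agent.Helper114.AB.Main

/-!
# MP_aef7b4_an: topological conjugacy of real analytic diffeomorphisms of the torus is not Borel

`M = Circle × Circle` is the two-dimensional torus with its standard real analytic structure.
The topology on `Diff^∞(M)` is any Polish topology for which the inclusion into `C(M, M)`
(uniform convergence) is continuous; the `C^∞` topology is one of them.
-/

open scoped Manifold ContDiff
open Set Filter Topology

namespace Pool.Agent.Results.MP_aef7b4_an.ConjNotBorel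

section Definitions

variable {E H : Type} [NormedAddCommGroup E] [NormedSpace ℝ E] [TopologicalSpace H]
  (I : ModelWithCorners ℝ E H) (M : Type) [TopologicalSpace M] [ChartedSpace H M]

/-- The group `Diff^∞(M)` of the `C^∞` diffeomorphisms of the manifold `M` (with model `I`). -/
def Diff : Type := Diffeomorph I I M M ∞

/-- The inclusion of the diffeomorphisms into the continuous self-maps of `M`. -/
def incl (f : Diff I M) : C(M, M) := ⟨Diffeomorph.toEquiv f, Diffeomorph.continuous f⟩

/-- `Diff^ω(M)`: the diffeomorphisms that are real analytic together with their inverse. -/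
def DiffOmega : Set (Diff I M) :=
  {f | ContMDiff I I ω (Diffeomorph.toEquiv f) ∧ ContMDiff I I ω (Diffeomorph.toEquiv f).symm}

/-- Topological conjugacy of two continuous self-maps of `M`. -/
def TopConj {M : Type} [TopologicalSpace M] (f g : C(M, M)) : Prop :=
  ∃ h : M ≃ₜ M, ∀ x, h (f x) = g (h x)

/-- For the topology `τ` on `Diff^∞(M)` (and the subspace topology on `Diff^ω(M)`), the relation
`E^ω_M` of topological conjugacy is a Borel subset of `Diff^ω(M) × Diff^ω(M)`. -/
def ConjIsBorel (τ : TopologicalSpace (Diff I M)) : Prop :=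
  @MeasurableSet (DiffOmega I M × DiffOmega I M) (borel (DiffOmega I M × DiffOmega I M))
    {p : DiffOmega I M × DiffOmega I M | TopConj (incl I M p.1.1) (incl I M p.2.1)}

/-- `E^ω_M` is not Borel, for every Polish topology on `Diff^∞(M)` that makes the inclusion into
`C(M, M)` (uniform convergence) continuous; the `C^∞` topology is such a topology. -/
def ConjNotBorel : Prop :=
  ∀ τ : TopologicalSpace (Diff I M), PolishSpace (Diff I M) → Continuous (incl I M) →
    ¬ ConjIsBorel I M τ

end Definitions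

open Pool.Agent.Helper114.AB in
/-- The relation `E^ω_M` is not Borel for the torus `M = S¹ × S¹`. -/
theorem result : ConjNotBorel ((𝓡 1).prod (𝓡 1)) (Circle × Circle) := by
  intro τ _polish hι
  obtain ⟨N, M, f, Fh, F, G, hex, c3, c4, hlim, hconj, hF, hG, rF, rG, hcont⟩ := family
  obtain ⟨Nb, r1, r2, hNb, s1, s2, m1, m2, hiso, hwf, hdl⟩ := orders
  -- the diffeomorphisms
  have an : ∀ a, ContMDiff ((𝓡 1).prod (𝓡 1)) ((𝓡 1).prod (𝓡 1)) ω (EM ∘ ⇑(f a) ∘ EM.symm) :=
    fun a => contMDiff_toM (F a) (hF a) (f a) (rF a)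
  have an' : ∀ a, ContMDiff ((𝓡 1).prod (𝓡 1)) ((𝓡 1).prod (𝓡 1)) ω
      (EM ∘ ⇑(f a)⁻¹ ∘ EM.symm) :=
    fun a => contMDiff_toM (G a) (hG a) _ (rG a)
  let mk : Pm → Diff ((𝓡 1).prod (𝓡 1)) (Circle × Circle) := fun a =>
    { toEquiv := (EM.symm.trans ((f a).trans EM)).toEquiv
      contMDiff_toFun := (an a).of_le le_top
      contMDiff_invFun := (an' a).of_le le_top }
  have mk_apply : ∀ a x, incl ((𝓡 1).prod (𝓡 1)) (Circle × Circle) (mk a) x
    = EM (f a (EM.symm x)) := fun a x => rfl
  have mk_mem : ∀ a, mk a ∈ DiffOmega ((𝓡 1).prod (𝓡 1)) (Circle × Circle) :=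
    fun a => ⟨an a, an' a⟩
  have mk_cont : Continuous fun a => incl ((𝓡 1).prod (𝓡 1)) (Circle × Circle) (mk a) := by
    have h1 : Continuous fun q : Pm × (Circle × Circle) => EM (f q.1 (EM.symm q.2)) := by
      apply EM.continuous.comp
      exact hcont.comp (continuous_fst.prodMk (EM.symm.continuous.comp continuous_snd))
    exact (ContinuousMap.curry ⟨_, h1⟩).continuous
  have inj : Function.Injective (incl ((𝓡 1).prod (𝓡 1)) (Circle × Circle)) := by
    intro a b hab
    apply Diffeomorph.toEquiv_injective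
    ext x : 1
    exact congrArg (fun g : C(Circle × Circle, Circle × Circle) => g x) hab
  -- the parameters
  let a1 : (ℕ → ℕ) → Pm := fun y n => ⟨cen (r1 y) n, cen_mem (s1 y) n⟩
  let a2 : (ℕ → ℕ) → Pm := fun y n => ⟨cen (r2 y) n, cen_mem (s2 y) n⟩
  have ma1 : Measurable a1 := measurable_pi_lambda _ fun n => (meas_cen m1 n).subtype_mk
  have ma2 : Measurable a2 := measurable_pi_lambda _ fun n => (meas_cen m2 n).subtype_mk
  have id1 : ∀ y, Ideal N M (cen (r1 y)) (Fh (a1 y)) := fun y =>
    ⟨hex, c3, c4, disj_cen (s1 y), hlim (a1 y)⟩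
  have id2 : ∀ y, Ideal N M (cen (r2 y)) (Fh (a2 y)) := fun y =>
    ⟨hex, c3, c4, disj_cen (s2 y), hlim (a2 y)⟩
  have meas : ∀ a : (ℕ → ℕ) → Pm, Measurable a →
      @Measurable _ _ _ (borel C(Circle × Circle, Circle × Circle))
        (fun y => incl ((𝓡 1).prod (𝓡 1)) (Circle × Circle) (mk (a y))) := by
    intro a ha
    let _ : MeasurableSpace C(Circle × Circle, Circle × Circle) := borel _
    have : BorelSpace C(Circle × Circle, Circle × Circle) := ⟨rfl⟩
    exact mk_cont.measurable.comp ha
  refine not_borel (incl ((𝓡 1).prod (𝓡 1)) (Circle × Circle)) hι inj _ _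
    (fun y => ⟨mk (a1 y), mk_mem _⟩) (fun y => ⟨mk (a2 y), mk_mem _⟩) (meas a1 ma1)
    (meas a2 ma2) Nb hNb ?_
  intro y
  obtain ⟨C1, hC1⟩ := hconj (a1 y)
  obtain ⟨C2, hC2⟩ := hconj (a2 y)
  constructor
  · intro hy
    obtain ⟨π, hπ⟩ := hiso y hy
    obtain ⟨K, hK⟩ := forward (s1 y) (s2 y) π hπ (id1 y) (id2 y)
    refine ⟨EM.symm.trans (C1.symm.trans (K.trans (C2.trans EM))), fun x => ?_⟩
    simp only [Homeomorph.trans_apply]
    rw [mk_apply, mk_apply]
    simp only [Homeomorph.symm_apply_apply]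
    congr 1
    have e1 : C1.symm (f (a1 y) (EM.symm x)) = Fh (a1 y) (C1.symm (EM.symm x)) := by
      rw [Homeomorph.symm_apply_eq, ← hC1, Homeomorph.apply_symm_apply]
    rw [e1, hK, hC2]
  · rintro ⟨h, hh⟩
    by_contra hy
    obtain ⟨S, hS⟩ := hdl y
    refine backward (s1 y) (s2 y) (hwf y hy) hS (id1 y) (id2 y)
      (C1.trans (EM.trans (h.trans (EM.symm.trans C2.symm)))) (fun p => ?_)
    simp only [Homeomorph.trans_apply]
    rw [Homeomorph.symm_apply_eq, ← hC2, Homeomorph.apply_symm_apply]
    have h1 := hh (EM (C1 p))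
    rw [mk_apply, mk_apply, Homeomorph.symm_apply_apply] at h1
    rw [← hC1, h1, Homeomorph.symm_apply_apply]

end Pool.Agent.Results.MP_aef7b4_an.ConjNotBorel
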